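import Pool.Agent.Helper38.ZS.Defs

/-!
# Beck-Fiala without `n`: the Cauchy potential and the schedule (definitions)

`a j v` is the matrix (row `j`, column `v`), `fo a v y = ∑ j, a j v * y j` the linear form of `v`.
-/

namespace Pool.Agent.Helper18.NFC

open Finset MeasureTheory
open scoped Classical

noncomputable section

/-- the bounded well -/
def ph (x : ℝ) : ℝ := x ^ 2 / (1 + x ^ 2)

/-- the row well -/
def ps (x : ℝ) : ℝ := Real.log (1 + x ^ 2)

/-- the constant of the coloured elements -/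
def c0 : ℝ := 1 / 2561600

variable {V R : Type} [Fintype V] [Fintype R]

omit [Fintype V] in
/-- linear form of the element `v` -/
def fo (a : R → V → ℝ) (v : V) (y : R → ℝ) : ℝ := ∑ j, a j v * y j

/-- base density -/
def qd (lam : R → ℝ) (y : R → ℝ) : ℝ := ∏ j, ((1 + (lam j * y j) ^ 2)⁻¹) ^ 2

omit [Fintype V] in
/-- the exponent -/
def hh (a : R → V → ℝ) (s : V → ℝ) (E B : Finset V) (b c : ℝ) (y : R → ℝ) : ℝ :=
  b * (∑ v ∈ B, ph (s v * fo a v y) - c * ∑ u ∈ E, ph (fo a u y))

omit [Fintype V] in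
/-- the Gibbs density -/
def rho (a : R → V → ℝ) (lam : R → ℝ) (s : V → ℝ) (E B : Finset V) (b c : ℝ) (y : R → ℝ) : ℝ :=
  qd lam y * Real.exp (-hh a s E B b c y)

omit [Fintype V] in
/-- the partition function -/
def ZZ (a : R → V → ℝ) (lam : R → ℝ) (s : V → ℝ) (E B : Finset V) (b c : ℝ) : ℝ :=
  ∫ y, rho a lam s E B b c y

/-- the one dimensional base integral -/
def q0 : ℝ := ∫ x : ℝ, ((1 + x ^ 2)⁻¹) ^ 2

omit [Fintype V] in
/-- normalised log partition function -/
def LL (a : R → V → ℝ) (lam : R → ℝ) (s : V → ℝ) (E B : Finset V) (b c : ℝ) : ℝ :=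
  Real.log (ZZ a lam s E B b c) + ∑ j, Real.log (lam j) - (Fintype.card R : ℝ) * Real.log q0

omit [Fintype V] in
/-- the Gibbs mean of `ph (f_u)` is at most `x` -/
def Hap (a : R → V → ℝ) (lam : R → ℝ) (s : V → ℝ) (E B : Finset V) (b c x : ℝ) (u : V) : Prop :=
  ∫ y, rho a lam s E B b c y * ph (fo a u y) ≤ x * ZZ a lam s E B b c

/-! ## the schedule: `k v` is the level at which the element `v` is coloured -/

/-- elements of rank at least `i` -/
def Vi (k : V → ℕ) (i : ℕ) : Finset V := univ.filter (fun v => i ≤ k v)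

/-- elements of rank `i` -/
def Ei (k : V → ℕ) (i : ℕ) : Finset V := univ.filter (fun v => k v = i)

omit [Fintype V] in
/-- displacement weight at level `i` -/
def sw (k : V → ℕ) (i : ℕ) (v : V) : ℝ := (1 / 2) ^ (k v - (i + 1))

omit [Fintype R] in
/-- support of the row `j` -/
def sp (a : R → V → ℝ) (j : R) : Finset V := univ.filter (fun v => a j v ≠ 0)

omit [Fintype R] in
/-- last level of the row `j` -/
def last (a : R → V → ℝ) (k : V → ℕ) (j : R) : ℕ := (sp a j).sup k

omit [Fintype R] in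
/-- tolerance of the row `j` at level `i` -/
def lami (a : R → V → ℝ) (k : V → ℕ) (t J i : ℕ) (j : R) : ℝ :=
  400 * √(t : ℝ) * (1 / 2) ^ (last a k j - (i + J))

end

end Pool.Agent.Helper18.NFC
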