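import Pool.Agent.Helper18.NFC.Defs

/-!
# Beck-Fiala without `n`: statements of the modules (see /team-store/bf_helper18d.md)
-/

namespace Pool.Agent.Helper18.NFC

open Finset MeasureTheory
open scoped Classical
open Pool.Agent.Helper38.ZS (IsPr ap l1)

noncomputable section

/-- 1. one variable inequalities -/
def ST_INEQ : Prop :=
  (∀ x, 0 ≤ ph x ∧ ph x ≤ 1 ∧ ph x ≤ x ^ 2 ∧ ph (-x) = ph x) ∧
  (∀ x, 1 ≤ |x| → 1 / 2 ≤ ph x) ∧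
  (∀ x, 0 ≤ ps x ∧ ps x ≤ x ^ 2 ∧ ps (-x) = ps x) ∧
  (∀ a x, (ph (a + x) + ph (a - x)) / 2 - ph a ≤ ph x) ∧
  (∀ a x, ph x * (1 - 6 * ph a) ≤ (ph (a + x) + ph (a - x)) / 2 - ph a) ∧
  (∀ a x, (ps (a + x) + ps (a - x)) / 2 - ps a ≤ ps x) ∧
  (∀ a x, |ps (a + x) - ps a| ≤ |x|)

/-- 2. summation over dyadic scales -/
def ST_DYAD : Prop :=
  ∀ (I J K : Type) (E : Finset I) (B : Finset J) (Q : Finset K) (α : I → ℝ) (β : J → ℝ)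
    (γ : K → ℝ) (c κ : ℝ), 0 ≤ c → 0 ≤ κ →
    (∀ h : ℝ, 0 < h → c * ∑ u ∈ E, ph (α u / h) ≤
      ∑ v ∈ B, ph (β v / h) + κ * ∑ j ∈ Q, ps (γ j / h)) →
    c * ∑ u ∈ E, |α u| ≤ 100 * (∑ v ∈ B, |β v| + κ * ∑ j ∈ Q, |γ j|)

/-- 3. integrability and positivity -/
def ST_INT : Prop :=
  (0 < q0 ∧ q0 ≤ 7 / 2) ∧
  (∀ (R : Type) [Fintype R] (lam : R → ℝ), (∀ j, 0 < lam j) →
    Integrable (qd lam) ∧ ∫ y, qd lam y = ∏ j, (q0 / lam j)) ∧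
  ∀ (V R : Type) [Fintype V] [Fintype R] (a : R → V → ℝ) (lam : R → ℝ) (s : V → ℝ)
    (E B : Finset V) (b c : ℝ), (∀ j, 0 < lam j) →
    Integrable (rho a lam s E B b c) ∧ 0 < ZZ a lam s E B b c

/-- 4. domination at all real points -/
def ST_DOM : Prop :=
  ∀ (V R : Type) [Fintype V] [Fintype R] (a : R → V → ℝ) (lam : R → ℝ) (s : V → ℝ)
    (E B : Finset V) (b c : ℝ), (∀ j, 0 < lam j) → 0 < b → 0 ≤ c →
    (∀ u ∈ E, Hap a lam s E B b c (1 / 100) u) → ∀ y : R → ℝ,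
    c / 2 * ∑ u ∈ E, ph (fo a u y) ≤
      2 / b * ∑ j, ps (lam j * y j) + ∑ v ∈ B, ph (s v * fo a v y)

/-- 5. leverages -/
def ST_LEV : Prop :=
  ∀ (V R : Type) [Fintype V] [Fintype R] (a : R → V → ℝ) (lam : R → ℝ) (s : V → ℝ)
    (E B : Finset V) (b c : ℝ), (∀ j, 0 < lam j) → 0 < b → 0 ≤ c →
    (∀ u ∈ E, Hap a lam s E B b c (1 / 100) u) → ∀ u ∈ E, ∀ y : R → ℝ,
    fo a u y ^ 2 ≤ 10 * (2 * ∑ j, (lam j * y j) ^ 2 + b * ∑ v ∈ B, (s v * fo a v y) ^ 2)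

/-- 6. costs and gains -/
def ST_COST : Prop :=
  ∀ (V R : Type) [Fintype V] [Fintype R] (a : R → V → ℝ) (lam : R → ℝ) (s : V → ℝ)
    (E B : Finset V) (b c : ℝ) (u : V), (∀ j, 0 < lam j) → 0 ≤ b → b ≤ 1 → 0 ≤ c →
    -- a new coloured element
    (u ∉ E → LL a lam s (insert u E) B b c ≤ LL a lam s E B b c + b * c) ∧
    -- smaller tolerances
    (∀ lam' : R → ℝ, (∀ j, 0 < lam' j) → (∀ j, lam' j ≤ lam j) →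
      LL a lam' s E B b c ≤ LL a lam s E B b c + 3 * ∑ j, Real.log (lam j / lam' j)) ∧
    -- a change of one weight
    (∀ s' : V → ℝ, (∀ v ∈ B, v ≠ u → s' v = s v) →
      LL a lam s' E B b c ≤ LL a lam s E B b c + b) ∧
    -- gain of a raise
    (∀ x : ℝ, 0 ≤ x → u ∈ E → u ∉ B → s u = 1 → ¬ Hap a lam s E B b c x u →
      LL a lam s (E.erase u) (insert u B) b c ≤ LL a lam s E B b c - b / 2 * x) ∧
    -- normalisation and congruence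
    LL a lam s ∅ ∅ b c = 0 ∧
    (LL a lam s E ∅ b c ≤ b * c * #E) ∧
    ∀ s' : V → ℝ, (∀ v ∈ B, s' v = s v) → rho a lam s' E B b c = rho a lam s E B b c

/-- 7. the lower bound -/
def ST_LOW : Prop :=
  ∀ (V R : Type) [Fintype V] [Fintype R] (a : R → V → ℝ) (lam : R → ℝ) (s : V → ℝ)
    (E B : Finset V) (b c l0 t : ℝ), (∀ j, 0 < lam j ∧ lam j ≤ l0) →
    (∀ v, ∑ j, a j v ^ 2 ≤ t) → (∀ v, 0 ≤ s v ∧ s v ≤ 1) → 0 ≤ b → 0 ≤ c →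
    -(∑ j, Real.log (l0 / lam j)) - b * (7 * t / l0 ^ 2) * #B ≤ LL a lam s E B b c

/-- 8. the schedule -/
def ST_SCHED : Prop :=
  ∀ b : ℝ, 0 < b → b ≤ 1 →
    ∀ (V R : Type) [Fintype V] [Fintype R] (a : R → V → ℝ) (t J : ℕ), 1 ≤ t →
      (∀ j v, |a j v| ≤ 1) → (∀ v, #(univ.filter (fun j => a j v ≠ 0)) ≤ t) →
      5000 * (t : ℝ) ≤ b * 1601 ^ J →
      ∃ k : V → ℕ, ∀ i, ∀ u ∈ Ei k i,
        Hap a (lami a k t J i) (sw k i) (Ei k i) (Vi k (i + 1)) b c0 (1 / 100) u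

/-- 9. signing of a subspace with prescribed means (from `Helper38.ZS`, module 18) -/
def ST_SIGNM : Prop :=
  ∀ β : ℝ, 0 < β → β ≤ 1 → ∃ η L : ℝ, 0 < η ∧ 1 ≤ L ∧
    ∀ (ι : Type) [Fintype ι] (P : ι → ι → ℝ) (V : Finset ι), IsPr P → (∀ i ∈ V, P i i ≤ η) →
      ∀ z : ι → ℝ, (∀ i, |z i| ≤ 1) →
      ∃ ξ : ι → ℝ, (∀ i, ξ i = 1 ∨ ξ i = -1) ∧
        ∀ f : ι → ℝ, ap P f = f → ∑ i ∈ V, (ξ i - z i) * f i ≤ β * l1 f V + L * l1 f Vᶜ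

/-- 10. projection onto the range of a matrix -/
def ST_PROJ : Prop :=
  ∀ (ι R : Type) [Fintype ι] [Fintype R] (M : ι → R → ℝ), ∃ P : ι → ι → ℝ, IsPr P ∧
    (∀ y : R → ℝ, ap P (fun i => ∑ j, M i j * y j) = fun i => ∑ j, M i j * y j) ∧
    ∀ (i : ι) (η : ℝ),
      (∀ y : R → ℝ, (∑ j, M i j * y j) ^ 2 ≤ η * ∑ k, (∑ j, M k j * y j) ^ 2) → P i i ≤ η

/-- 11. duality -/
def ST_DUAL : Prop :=
  ∀ (V R : Type) [Fintype V] [Fintype R] (a : R → V → ℝ) (x : R → ℝ) (B : Finset V)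
    (d : V → ℝ) (τ : R → ℝ), (∀ v ∈ B, 0 ≤ d v) → (∀ j, 0 ≤ τ j) →
    (∀ y : R → ℝ, ∑ j, x j * y j ≤ ∑ v ∈ B, d v * |fo a v y| + ∑ j, τ j * |y j|) →
    ∃ δ : V → ℝ, (∀ v ∈ B, |δ v| ≤ d v) ∧ ∀ j, |x j + ∑ v ∈ B, a j v * δ v| ≤ τ j

/-- one round with constants `b`, `Cs` -/
def Round (b Cs : ℝ) : Prop :=
  ∀ (V R : Type) [Fintype V] [Fintype R] (a : R → V → ℝ) (lam : R → ℝ) (s : V → ℝ)
    (E B : Finset V) (z : V → ℝ), (∀ j, 0 < lam j) → (∀ v, 0 ≤ s v ∧ s v ≤ 1) → Disjoint E B →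
    (∀ u ∈ E, Hap a lam s E B b c0 (1 / 100) u) → (∀ v, |z v| ≤ 1) →
    ∃ ξ δ : V → ℝ, (∀ v, ξ v = 1 ∨ ξ v = -1) ∧ (∀ v ∈ B, |δ v| ≤ s v / 8) ∧
      ∀ j, |∑ u ∈ E, a j u * (ξ u - z u) + ∑ v ∈ B, a j v * δ v| ≤ Cs * lam j

/-- 12. one round -/
def ST_ROUND : Prop := ∃ b Cs : ℝ, 0 < b ∧ b ≤ 1 ∧ 0 < Cs ∧ Round b Cs

/-- 13. iteration of the rounds and the error of a row -/
def ST_ITER : Prop :=
  ∀ b Cs : ℝ, 0 < b → b ≤ 1 → 0 < Cs → Round b Cs →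
    ∀ (V R : Type) [Fintype V] [Fintype R] (a : R → V → ℝ) (t J : ℕ) (k : V → ℕ),
      1 ≤ t →
      (∀ i, ∀ u ∈ Ei k i,
        Hap a (lami a k t J i) (sw k i) (Ei k i) (Vi k (i + 1)) b c0 (1 / 100) u) →
      ∃ χ : V → ℝ, (∀ v, χ v = 1 ∨ χ v = -1) ∧
        ∀ j, |∑ v, a j v * χ v| ≤ Cs * (400 * √(t : ℝ)) * (J + 3)

/-- 14. the theorem -/
def ST_FINAL : Prop :=
  ∃ C : ℝ, ∀ (n m t : ℕ) (A : Fin m → Fin n → ℝ), 1 ≤ t →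
    (∀ i x, |A i x| ≤ 1) → (∀ x : Fin n, #(univ.filter (fun i : Fin m => A i x ≠ 0)) ≤ t) →
    ∃ χ : Fin n → ℤ, (∀ x, χ x = 1 ∨ χ x = -1) ∧
      ∀ i : Fin m, |∑ x : Fin n, A i x * χ x| ≤ C * (√(t : ℝ) * (1 + Real.log t))

end

end Pool.Agent.Helper18.NFC
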